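import Pool.Agent.Helper34.EC.Defs

/-!
# Project EC, module EC-A3: the vanishing bound passes to algebraic extensions of the base field
-/

set_option autoImplicit false

namespace Pool.Agent.Helper85.EC

open Pool.Agent.Helper34.EC
open TensorProduct

noncomputable section

section proj

variable {F B Ω : Type} [Field F] [CommRing B] [Algebra F B] [Field Ω] [Algebra F Ω]

/-- The map `Ω ⊗ B → B` given by a functional on `Ω`. -/
def proj (l : Ω →ₗ[F] F) : Ω ⊗[F] B →ₗ[F] B :=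
  (TensorProduct.lid F B).toLinearMap ∘ₗ (LinearMap.rTensor B l)

theorem proj_tmul (l : Ω →ₗ[F] F) (w : Ω) (y : B) : proj l (w ⊗ₜ[F] y) = l w • y := by
  simp [proj]

theorem proj_mul (l : Ω →ₗ[F] F) (y : B) (z : Ω ⊗[F] B) :
    proj l (((1 : Ω) ⊗ₜ[F] y) * z) = y * proj l z := by
  induction z with
  | zero => simp
  | tmul w x =>
    rw [Algebra.TensorProduct.tmul_mul_tmul, proj_tmul, proj_tmul, one_mul, mul_smul_comm]
  | add a b ha hb => rw [mul_add, map_add, map_add, ha, hb, mul_add]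

theorem proj_smul (l : Ω →ₗ[F] F) (w : Ω) (z : Ω ⊗[F] B) :
    proj l (w • z) = proj (l ∘ₗ LinearMap.mulLeft F w) z := by
  induction z with
  | zero => simp
  | tmul v x =>
    rw [TensorProduct.smul_tmul', proj_tmul, proj_tmul]
    simp
  | add a b ha hb => rw [smul_add, map_add, map_add, ha, hb]

theorem proj_mem (l : Ω →ₗ[F] F) (K : Ideal B) {z : Ω ⊗[F] B}
    (hz : z ∈ K.map (Algebra.TensorProduct.includeRight : B →ₐ[F] Ω ⊗[F] B)) :
    proj l z ∈ K := by
  have key : ∀ c : Ω ⊗[F] B, proj l (c * z) ∈ K := by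
    unfold Ideal.map at hz
    induction hz using Submodule.span_induction with
    | mem x hx =>
      obtain ⟨y, hy, rfl⟩ := hx
      intro c
      rw [mul_comm]
      change proj l (((1 : Ω) ⊗ₜ[F] y) * c) ∈ K
      rw [proj_mul]
      exact K.mul_mem_right _ hy
    | zero => intro c; simp
    | add a b _ _ ha hb =>
      intro c
      rw [mul_add, map_add]
      exact K.add_mem (ha c) (hb c)
    | smul a x _ hx =>
      intro c
      rw [smul_eq_mul, ← mul_assoc]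
      exact hx _
  simpa using key 1

theorem exists_proj {z : Ω ⊗[F] B} (hz : z ≠ 0) : ∃ l : Ω →ₗ[F] F, proj l z ≠ 0 := by
  classical
  by_contra hcon
  push Not at hcon
  apply hz
  let w := Module.Basis.ofVectorSpace F Ω
  have h1 : ∀ (i) (y : Ω ⊗[F] B), TensorProduct.equivFinsuppOfBasisLeft w y i =
      proj (w.coord i) y := by
    intro i y
    induction y with
    | zero => simp
    | tmul v x =>
      rw [TensorProduct.equivFinsuppOfBasisLeft_apply_tmul_apply, proj_tmul]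
      rfl
    | add a b ha hb => rw [map_add, map_add, Finsupp.add_apply, ha, hb]
  apply (TensorProduct.equivFinsuppOfBasisLeft w).injective
  rw [map_zero]
  ext i
  rw [h1, hcon]
  rfl

end proj

section Psi

variable {F A Ω : Type} [Field F] [CommRing A] [Algebra F A] [Field Ω] [Algebra F Ω]

variable (F A Ω) in
/-- The comparison map. -/
def Psi : (Ω ⊗[F] A) ⊗[Ω] (Ω ⊗[F] A) →ₐ[Ω] Ω ⊗[F] (A ⊗[F] A) :=
  Algebra.TensorProduct.lift
    (Algebra.TensorProduct.map (AlgHom.id Ω Ω) Algebra.TensorProduct.includeLeft)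
    (Algebra.TensorProduct.map (AlgHom.id Ω Ω) Algebra.TensorProduct.includeRight)
    (fun _ _ => Commute.all _ _)

theorem Psi_tmul (v w : Ω) (a b : A) : Psi F A Ω ((v ⊗ₜ[F] a) ⊗ₜ[Ω] (w ⊗ₜ[F] b)) =
    (v * w) ⊗ₜ[F] (a ⊗ₜ[F] b) := by
  simp [Psi]

theorem Psi_dist (y : Ω ⊗[F] (A ⊗[F] A)) :
    Psi F A Ω (AlgebraTensorModule.distribBaseChange F Ω A A y) = y := by
  induction y with
  | zero => simp
  | tmul w x =>
    induction x with
    | zero => simp
    | tmul a b =>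
      rw [AlgebraTensorModule.distribBaseChange_tmul, Psi_tmul, mul_one]
    | add a b ha hb => rw [TensorProduct.tmul_add, map_add, map_add, ha, hb]
  | add a b ha hb => rw [map_add, map_add, ha, hb]

theorem Psi_ne_zero {x : (Ω ⊗[F] A) ⊗[Ω] (Ω ⊗[F] A)} (hx : x ≠ 0) : Psi F A Ω x ≠ 0 := by
  obtain ⟨y, rfl⟩ := (AlgebraTensorModule.distribBaseChange F Ω A A).surjective x
  rw [Psi_dist]
  intro h
  apply hx
  rw [h, map_zero]

theorem Psi_diff (s : Ω ⊗[F] A) : Psi F A Ω (1 ⊗ₜ[Ω] s - s ⊗ₜ[Ω] 1) ∈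
    (KaehlerDifferential.ideal F A).map
      (Algebra.TensorProduct.includeRight : A ⊗[F] A →ₐ[F] Ω ⊗[F] (A ⊗[F] A)) := by
  induction s with
  | zero => simp
  | tmul w a =>
    have h : Psi F A Ω (1 ⊗ₜ[Ω] (w ⊗ₜ[F] a) - (w ⊗ₜ[F] a) ⊗ₜ[Ω] 1) =
        (w ⊗ₜ[F] (1 : A ⊗[F] A)) * (Algebra.TensorProduct.includeRight :
          A ⊗[F] A →ₐ[F] Ω ⊗[F] (A ⊗[F] A)) (1 ⊗ₜ[F] a - a ⊗ₜ[F] 1) := by
      rw [map_sub, Algebra.TensorProduct.one_def, Psi_tmul, Psi_tmul,
        Algebra.TensorProduct.includeRight_apply, Algebra.TensorProduct.tmul_mul_tmul, one_mul,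
        mul_one, one_mul, TensorProduct.tmul_sub]
    rw [h]
    exact Ideal.mul_mem_left _ _ (Ideal.mem_map_of_mem _
      (KaehlerDifferential.one_smul_sub_smul_one_mem_ideal F a))
  | add a b ha hb =>
    have h : (1 ⊗ₜ[Ω] (a + b) - (a + b) ⊗ₜ[Ω] 1 : (Ω ⊗[F] A) ⊗[Ω] (Ω ⊗[F] A)) =
        (1 ⊗ₜ[Ω] a - a ⊗ₜ[Ω] 1) + (1 ⊗ₜ[Ω] b - b ⊗ₜ[Ω] 1) := by
      rw [TensorProduct.tmul_add, TensorProduct.add_tmul]
      abel
    rw [h, map_add]
    exact Ideal.add_mem _ ha hb

theorem Psi_ideal : (KaehlerDifferential.ideal Ω (Ω ⊗[F] A)).map (Psi F A Ω) ≤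
    (KaehlerDifferential.ideal F A).map
      (Algebra.TensorProduct.includeRight : A ⊗[F] A →ₐ[F] Ω ⊗[F] (A ⊗[F] A)) := by
  rw [← KaehlerDifferential.span_range_eq_ideal, Ideal.map_le_iff_le_comap, Ideal.span_le]
  rintro _ ⟨s, rfl⟩
  exact Psi_diff s

theorem Psi_pow (γ : ℕ) {x : (Ω ⊗[F] A) ⊗[Ω] (Ω ⊗[F] A)}
    (hx : x ∈ (KaehlerDifferential.ideal Ω (Ω ⊗[F] A)) ^ γ) : Psi F A Ω x ∈
    ((KaehlerDifferential.ideal F A) ^ γ).map
      (Algebra.TensorProduct.includeRight : A ⊗[F] A →ₐ[F] Ω ⊗[F] (A ⊗[F] A)) := by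
  rw [Ideal.map_pow]
  refine Ideal.pow_right_mono Psi_ideal γ ?_
  rw [← Ideal.map_pow]
  exact Ideal.mem_map_of_mem _ hx

theorem proj_sq (V : Submodule F A) {x : (Ω ⊗[F] A) ⊗[Ω] (Ω ⊗[F] A)}
    (hx : x ∈ sq (V.baseChange Ω)) : ∀ l : Ω →ₗ[F] F, proj l (Psi F A Ω x) ∈ sq V := by
  induction hx using Submodule.span_induction with
  | mem x hx =>
    obtain ⟨a, ha, b, hb, rfl⟩ := hx
    rw [Submodule.baseChange_eq_span] at ha hb
    induction ha using Submodule.span_induction with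
    | mem a ha =>
      obtain ⟨a', ha', rfl⟩ := ha
      induction hb using Submodule.span_induction with
      | mem b hb =>
        obtain ⟨b', hb', rfl⟩ := hb
        intro l
        change proj l (Psi F A Ω (((1 : Ω) ⊗ₜ[F] a') ⊗ₜ[Ω] ((1 : Ω) ⊗ₜ[F] b'))) ∈ sq V
        rw [Psi_tmul, proj_tmul]
        exact Submodule.smul_mem _ _ (Submodule.subset_span ⟨a', ha', b', hb', rfl⟩)
      | zero => intro l; simp
      | add b b' _ _ h1 h2 =>
        intro l
        rw [TensorProduct.tmul_add, map_add, map_add]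
        exact Submodule.add_mem _ (h1 l) (h2 l)
      | smul w b _ h1 =>
        intro l
        rw [TensorProduct.tmul_smul, map_smul, proj_smul]
        exact h1 _
    | zero => intro l; simp
    | add b b' _ _ h1 h2 =>
      intro l
      rw [TensorProduct.add_tmul, map_add, map_add]
      exact Submodule.add_mem _ (h1 l) (h2 l)
    | smul w b _ h1 =>
      intro l
      rw [← TensorProduct.smul_tmul', map_smul, proj_smul]
      exact h1 _
  | zero => intro l; simp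
  | add b b' _ _ h1 h2 =>
    intro l
    rw [map_add, map_add]
    exact Submodule.add_mem _ (h1 l) (h2 l)
  | smul w b _ h1 =>
    intro l
    rw [map_smul, proj_smul]
    exact h1 _

end Psi

theorem exists_multiple {F A Ω : Type} [Field F] [CommRing A] [IsDomain A] [Algebra F A] [Field Ω]
    [Algebra F Ω] [Algebra.IsAlgebraic F Ω] [IsDomain (Ω ⊗[F] A)] {b : Ω ⊗[F] A} (hb : b ≠ 0) :
    ∃ (c : Ω ⊗[F] A) (a : A), a ≠ 0 ∧ c * b = (1 : Ω) ⊗ₜ[F] a := by
  let e := Algebra.TensorProduct.comm F Ω A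
  have : IsDomain (A ⊗[F] Ω) := e.symm.toMulEquiv.isDomain _
  have : Algebra.IsIntegral F Ω := inferInstance
  have : Algebra.IsIntegral A (A ⊗[F] Ω) := inferInstance
  have h1 : e b ≠ 0 := by
    intro h
    apply hb
    apply e.injective
    rw [h, map_zero]
  obtain ⟨r, hr, c, hc⟩ := (Algebra.IsIntegral.isIntegral (R := A) (e b)).isAlgebraic.exists_nonzero_dvd
    (mem_nonZeroDivisors_of_ne_zero h1)
  refine ⟨e.symm c, r, hr, ?_⟩
  apply e.injective
  rw [map_mul, AlgEquiv.apply_symm_apply, mul_comm, ← hc]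
  simp [e]

/-- EC-A3 -/
theorem van_bc {F A Ω : Type} [Field F] [CommRing A] [IsDomain A] [Algebra F A] [Field Ω]
    [Algebra F Ω] [Algebra.IsAlgebraic F Ω] [IsDomain (Ω ⊗[F] A)] (V : Submodule F A) (γ : ℕ)
    (h : Van F A V γ) : Van Ω (Ω ⊗[F] A) (V.baseChange Ω) γ := by
  intro x hx hx0 b hb hmem
  obtain ⟨c, a, ha, hc⟩ := exists_multiple hb
  obtain ⟨l, hl⟩ := exists_proj (Psi_ne_zero hx0)
  refine h _ (proj_sq V hx l) hl a ha ?_
  have h1 : (((1 : Ω) ⊗ₜ[F] a) ⊗ₜ[Ω] ((1 : Ω) ⊗ₜ[F] a)) * x ∈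
      (KaehlerDifferential.ideal Ω (Ω ⊗[F] A)) ^ γ := by
    rw [← hc, ← Algebra.TensorProduct.tmul_mul_tmul, mul_assoc]
    exact Ideal.mul_mem_left _ _ hmem
  have h2 := proj_mem l _ (Psi_pow γ h1)
  rw [map_mul, Psi_tmul, mul_one, proj_mul] at h2
  exact h2

end

end Pool.Agent.Helper85.EC
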